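import Pool.Agent.Helper58.SF.StN

/-!
# Project SF, module XCB: the crosscut lemma
-/

set_option autoImplicit false

namespace Pool.Agent.Helper69.SF

open Set Topology Pool.Agent.Helper13.TR Pool.Agent.Helper58.SF
open Pool.Agent.Helper13.TW (IsArc Spl IsSCC dch Chn Splt GT CSy MP Val LR MCell StARB StARX StSCL
  StUAR StINF StLIN StAC1 StSDM StLRC StBF StMD1 StMD2 StMD3)

/-- The inverse of a continuous injective map on a compact set. -/
private theorem inv_cont_XCB {S : Type} [TopologicalSpace S] [T2Space S] [Nonempty S] (K : Set S)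
    (g : S → ℂ) (hK : IsCompact K) (hg : ContinuousOn g K) (hi : InjOn g K) :
    ∃ r : ℂ → S, ContinuousOn r (g '' K) ∧ ∀ y ∈ K, r (g y) = y := by
  refine ⟨Function.invFunOn g K, ?_, fun y hy => hi.leftInvOn_invFunOn hy⟩
  have hinv : ∀ y ∈ K, Function.invFunOn g K (g y) = y := fun y hy => hi.leftInvOn_invFunOn hy
  rw [continuousOn_iff_isClosed]
  intro t ht
  refine ⟨g '' (K ∩ t), ((hK.inter_right ht).image_of_continuousOn
    (hg.mono inter_subset_left)).isClosed, ?_⟩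
  ext v
  constructor
  · rintro ⟨h1, y, hy, rfl⟩
    have h2 : y ∈ t := by
      have h3 : Function.invFunOn g K (g y) ∈ t := h1
      rwa [hinv y hy] at h3
    exact ⟨⟨y, ⟨hy, h2⟩, rfl⟩, ⟨y, hy, rfl⟩⟩
  · rintro ⟨⟨y, ⟨hy, hyt⟩, rfl⟩, h2⟩
    refine ⟨?_, h2⟩
    show Function.invFunOn g K (g y) ∈ t
    rw [hinv y hy]
    exact hyt

/-- A splitting of the target curve is transported to the curve. -/
private theorem spl_XCB (hARB : StARB) {S : Type} [TopologicalSpace S] [T2Space S] (K : Set S)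
    (g : S → ℂ) (hS : IsSCC K) (hg : ContinuousOn g K) (hi : InjOn g K) (J' : Set ℂ)
    (hJ : g '' K = J') (p' q' : ℂ) (D₁' D₂' : Set ℂ) (h : Spl J' p' q' D₁' D₂') :
    ∃ (p q : S) (D₁ D₂ : Set S), Spl K p q D₁ D₂ ∧ g p = p' ∧ g q = q' ∧ g '' D₁ = D₁' ∧
      g '' D₂ = D₂' := by
  obtain ⟨hA1, -, -, -, -, hA6⟩ := hARB
  have hKc : IsCompact K := by
    obtain ⟨a, b, C₁, C₂, h1, h2, -, h4⟩ := hS
    rw [← h4]
    exact (hA1 S C₁ a b h1).2.1.union (hA1 S C₂ a b h2).2.1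
  obtain ⟨a, -, -, -, -⟩ := hS
  haveI : Nonempty S := ⟨a⟩
  obtain ⟨r, hr, hrg⟩ := inv_cont_XCB K g hKc hg hi
  rw [hJ] at hr
  obtain ⟨h1, h2, h3, h4⟩ := h
  have hs1 : D₁' ⊆ J' := by
    rw [← h4]
    exact subset_union_left
  have hs2 : D₂' ⊆ J' := by
    rw [← h4]
    exact subset_union_right
  have hgr : ∀ v ∈ J', g (r v) = v := by
    intro v hv
    rw [← hJ] at hv
    obtain ⟨y, hy, rfl⟩ := hv
    rw [hrg y hy]
  have hinj : InjOn r J' := by
    intro v hv w hw hvw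
    rw [← hgr v hv, ← hgr w hw, hvw]
  have hp1 : p' ∈ D₁' := (hA1 ℂ D₁' p' q' h1).2.2.1
  have hq1 : q' ∈ D₁' := (hA1 ℂ D₁' p' q' h1).2.2.2.1
  have himg : ∀ A : Set ℂ, A ⊆ J' → g '' (r '' A) = A := by
    intro A hA
    ext v
    constructor
    · rintro ⟨-, ⟨w, hw, rfl⟩, rfl⟩
      rw [hgr w (hA hw)]
      exact hw
    · intro hv
      exact ⟨r v, ⟨v, hv, rfl⟩, hgr v (hA hv)⟩
  refine ⟨r p', r q', r '' D₁', r '' D₂', ⟨?_, ?_, ?_, ?_⟩, hgr p' (hs1 hp1), hgr q' (hs1 hq1),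
    himg D₁' hs1, himg D₂' hs2⟩
  · exact hA6 ℂ S D₁' p' q' r h1 (hr.mono hs1) (hinj.mono hs1)
  · exact hA6 ℂ S D₂' p' q' r h2 (hr.mono hs2) (hinj.mono hs2)
  · rw [← hinj.image_inter hs1 hs2, h3, image_pair]
  · rw [← image_union, h4]
    ext y
    constructor
    · rintro ⟨v, hv, rfl⟩
      rw [← hJ] at hv
      obtain ⟨z, hz, rfl⟩ := hv
      rw [hrg z hz]
      exact hz
    · intro hy
      refine ⟨g y, ?_, hrg y hy⟩
      rw [← hJ]
      exact ⟨y, hy, rfl⟩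

/-- XCB. -/
theorem hXCB (hXCA : StXCA) (hTGD : StTGD) (hTRM : StTRM) (hKAP : StKAP) (hARB : StARB) :
    StXCB := by
  intro S _ _ _ ω V hWN J f hJ hMono E' J' p' q' D₁' D₂' P' E₁' E₂' hE' hE'B hSplt m' hm' η₀ hη₀
  obtain ⟨n, y', β', C', κ, δ, δ₂, hn, hκ, hδ, hδη, hδ₂, hδ₂δ, hy0, hyn, hβ', hβU, hβ1, hβ2, hC'c,
    hC'E, hmC', hC'κ, hyC', hβC', hend0, hendn⟩ :=
    hTGD E' J' p' q' D₁' D₂' P' E₁' E₂' hE' hSplt m' hm' η₀ hη₀
  obtain ⟨η, hηdef⟩ : ∃ η : ℝ, η = min κ δ₂ := ⟨_, rfl⟩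
  have hη0 : 0 < η := by
    rw [hηdef]
    exact lt_min hκ hδ₂
  have hηκ : η ≤ κ := by
    rw [hηdef]
    exact min_le_left _ _
  have hηδ₂ : η ≤ δ₂ := by
    rw [hηdef]
    exact min_le_right _ _
  refine ⟨η, hη0, ?_⟩
  intro K g hK hKJ hgc hgi hgJ hgf hmark
  -- the splitting
  obtain ⟨p, q, D₁, D₂, hSpl, hgp, hgq, hgD1, hgD2⟩ :=
    spl_XCB hARB K g hK.1.1 hgc hgi J' hgJ p' q' D₁' D₂' hSplt.1
  obtain ⟨hA1, -, -, -, -, -⟩ := hARB
  have hpq : p ≠ q := (hA1 S D₁ p q hSpl.1).2.2.2.2.1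
  have hpK : p ∈ K := by
    rw [← hSpl.2.2.2]
    exact Or.inl (hA1 S D₁ p q hSpl.1).2.2.1
  have hqK : q ∈ K := by
    rw [← hSpl.2.2.2]
    exact Or.inl (hA1 S D₁ p q hSpl.1).2.2.2.1
  have hpI : p ∉ Ins ω K := fun h => h.1 hpK
  have hqI : q ∉ Ins ω K := fun h => h.1 hqK
  -- XCA
  have hEB : E' ⊆ Metric.closedBall 0 1 := hE'B
  have hC'B : C' ⊆ Metric.closedBall 0 1 := fun v hv => hEB (hC'E hv).1
  obtain ⟨hX1, hX2, hX3⟩ := hXCA S ω V hWN J f hJ hMono K g J' C' m' κ δ δ₂ η hK hKJ hgc hgi hgJ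
    hgf hηκ hηδ₂ hη0 hδ₂δ hC'B hC'c hmC' hC'κ hmark
  have hP'E : P' ⊆ E' := by
    obtain ⟨-, -, -, h4, h5, -, -⟩ := hSplt
    rw [← h5, ← h4]
    exact fun v hv => Or.inl hv.1
  have hβB : ∀ i < n, β' i ⊆ Metric.closedBall 0 1 := fun i hi =>
    ((hβ' i hi).2.2.2.trans hP'E).trans hEB
  have hys : ∀ i < n, y' i ∈ β' i := fun i hi => (hA1 ℂ _ _ _ (hβ' i hi).1).2.2.1
  have hye : ∀ i < n, y' (i + 1) ∈ β' i := fun i hi => (hA1 ℂ _ _ _ (hβ' i hi).1).2.2.2.1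
  -- the points x i
  have hex : ∀ i : ℕ, 1 ≤ i ∧ i + 1 ≤ n → ∃ v : S, v ∈ cl ω J ∧ f v = y' i := by
    rintro i ⟨-, hi⟩
    have h1 : y' i ∈ f '' cl ω J := by
      rw [hMono.2.2.1]
      exact hβB i (by omega) (hys i (by omega))
    obtain ⟨v, hv, hfv⟩ := h1
    exact ⟨v, hv, hfv⟩
  haveI : Nonempty S := ⟨p⟩
  choose! x0 hx0 using hex
  obtain ⟨x, hxdef⟩ : ∃ x : ℕ → S, x = fun i => if i = 0 then p else if i = n then q else x0 i :=
    ⟨_, rfl⟩
  have hx_0 : x 0 = p := by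
    rw [hxdef]
    exact if_pos rfl
  have hx_n : x n = q := by
    rw [hxdef]
    have h1 : n ≠ 0 := by omega
    show (if n = 0 then p else if n = n then q else x0 n) = q
    rw [if_neg h1, if_pos rfl]
  have hx_i : ∀ i : ℕ, 1 ≤ i → i + 1 ≤ n → x i ∈ cl ω J ∧ f (x i) = y' i := by
    intro i h1 h2
    have h3 : x i = x0 i := by
      rw [hxdef]
      have h4 : i ≠ 0 := by omega
      have h5 : i ≠ n := by omega
      show (if i = 0 then p else if i = n then q else x0 i) = x0 i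
      rw [if_neg h4, if_neg h5]
    rw [h3]
    exact hx0 i ⟨h1, h2⟩
  -- the sets G i
  obtain ⟨G, hGdef⟩ : ∃ G : ℕ → Set S, G = fun i => {v | (v ∈ Ins ω K ∧
      f v ∈ Metric.thickening δ (β' i)) ∨ (i = 0 ∧ v = p) ∨ (i + 1 = n ∧ v = q)} := ⟨_, rfl⟩
  have hG : ∀ (i : ℕ) (v : S), v ∈ G i ↔ ((v ∈ Ins ω K ∧
      f v ∈ Metric.thickening δ (β' i)) ∨ (i = 0 ∧ v = p) ∨ (i + 1 = n ∧ v = q)) := by
    intro i v
    rw [hGdef]
    rfl
  have hjoin : ∀ i < n, JoinedIn (G i) (x i) (x (i + 1)) := by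
    intro i hi
    rcases Nat.eq_zero_or_pos i with h0 | h0
    · subst h0
      rw [hx_0]
      have h1 := hx_i 1 le_rfl (by omega)
      have h2 := hX3 (β' 0) p (hβB 0 hi) (hβ' 0 hi).2.2.1 hpK (by
        rw [hgp, ← hy0]
        exact hys 0 hi) (by
        rw [hgp]
        exact hend0) (x 1) h1.1 (by
        rw [h1.2]
        exact hye 0 hi) (by
        rw [h1.2]
        exact hyC' 1 le_rfl (by omega))
      refine h2.symm.mono ?_
      rintro v (hv | hv)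
      · exact (hG 0 v).2 (Or.inl ⟨hv.1, hv.2⟩)
      · exact (hG 0 v).2 (Or.inr (Or.inl ⟨rfl, hv⟩))
    · by_cases hlast : i + 1 = n
      · have h1 := hx_i i h0 (by omega)
        rw [hlast, hx_n]
        have hi1 : n - 1 = i := by omega
        have h2 := hX3 (β' i) q (hβB i hi) (hβ' i hi).2.2.1 hqK (by
          rw [hgq, ← hyn, ← hlast]
          exact hye i hi) (by
          rw [hgq, ← hi1]
          exact hendn) (x i) h1.1 (by
          rw [h1.2]
          exact hys i hi) (by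
          rw [h1.2]
          exact hyC' i h0 (by omega))
        refine h2.mono ?_
        rintro v (hv | hv)
        · exact (hG i v).2 (Or.inl ⟨hv.1, hv.2⟩)
        · exact (hG i v).2 (Or.inr (Or.inr ⟨hlast, hv⟩))
      · have h1 := hx_i i h0 (by omega)
        have h1' := hx_i (i + 1) (by omega) (by omega)
        have h2 := hX2 (β' i) (hβB i hi) (hβ' i hi).2.2.1 (hβC' i h0 (by omega)) (x i) (x (i + 1))
          h1.1 h1'.1 (by
          rw [h1.2]
          exact hys i hi) (by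
          rw [h1'.2]
          exact hye i hi)
        refine h2.mono ?_
        rintro v hv
        exact (hG i v).2 (Or.inl ⟨hv.1, hv.2⟩)
  have hGd : ∀ i j : ℕ, i + 2 ≤ j → j < n → Disjoint (G i) (G j) := by
    intro i j hij hj
    rw [Set.disjoint_left]
    intro v hv hw
    rw [hG] at hv hw
    rcases hv with hv | ⟨-, hv⟩ | ⟨hv, -⟩
    · rcases hw with hw | ⟨hw, -⟩ | ⟨-, hw⟩
      · exact Set.disjoint_left.1 (hβ2 i j hij hj) hv.2 hw.2
      · omega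
      · rw [hw] at hv
        exact hqI hv.1
    · rcases hw with hw | ⟨hw, -⟩ | ⟨-, hw⟩
      · rw [hv] at hw
        exact hpI hw.1
      · omega
      · exact hpq (hv.symm.trans hw)
    · omega
  have hx0G : x 0 ∉ G 1 := by
    rw [hx_0, hG]
    rintro (h | ⟨h, -⟩ | ⟨-, h⟩)
    · exact hpI h.1
    · omega
    · exact hpq h
  have hxnG : x n ∉ G (n - 2) := by
    rw [hx_n, hG]
    rintro (h | ⟨h, -⟩ | ⟨h, -⟩)
    · exact hqI h.1
    · omega
    · omega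
  obtain ⟨y, β, hy_0, hy_n, hβ, hβi, hP⟩ := hTRM S n x G hn hjoin hGd hx0G hxnG
  rw [hx_0] at hy_0 hP
  rw [hx_n] at hy_n hP
  have hβ'd : ∀ i j : ℕ, i + 2 ≤ j → j < n → Disjoint (β' i) (β' j) := fun i j hij hj =>
    (hβ2 i j hij hj).mono (Metric.self_subset_thickening hδ _) (Metric.self_subset_thickening hδ _)
  have hβd : ∀ i j : ℕ, i + 2 ≤ j → j < n → Disjoint (β i) (β j) := fun i j hij hj =>
    (hGd i j hij hj).mono (hβ i (by omega)).2 (hβ j hj).2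
  obtain ⟨k, hkc, hki, hkβ, hky⟩ := hKAP S n y β y' β' (by omega)
    (fun i hi => ⟨(hβ i hi).1, (hβ' i hi).1⟩) (fun i hi => ⟨hβi i hi, hβ1 i hi⟩)
    (fun i j hij hj => ⟨hβd i j hij hj, hβ'd i j hij hj⟩)
  have hPI : ∀ v ∈ ⋃ i ∈ Finset.range n, β i, v ∈ Ins ω K ∨ v = p ∨ v = q := by
    intro v hv
    simp only [mem_iUnion, Finset.mem_range] at hv
    obtain ⟨i, hi, hv⟩ := hv
    have h1 := (hβ i hi).2 hv
    rw [hG] at h1
    rcases h1 with h1 | ⟨-, h1⟩ | ⟨-, h1⟩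
    · exact Or.inl h1.1
    · exact Or.inr (Or.inl h1)
    · exact Or.inr (Or.inr h1)
  have hPp : p ∈ ⋃ i ∈ Finset.range n, β i := (hA1 S _ p q hP).2.2.1
  have hPq : q ∈ ⋃ i ∈ Finset.range n, β i := (hA1 S _ p q hP).2.2.2.1
  refine ⟨p, q, D₁, D₂, ⋃ i ∈ Finset.range n, β i, k, hSpl, ⟨hP, ?_, ?_⟩, hgp, hgq, hgD1, hgD2,
    hkc, hki, ?_, ?_, ?_, ?_⟩
  · ext v
    constructor
    · rintro ⟨hv, hvK⟩
      rcases hPI v hv with h | h | h
      · exact absurd hvK h.1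
      · exact Or.inl h
      · exact Or.inr h
    · rintro (h | h)
      · rw [h]
        exact ⟨hPp, hpK⟩
      · rw [mem_singleton_iff] at h
        rw [h]
        exact ⟨hPq, hqK⟩
  · rintro v ⟨hv, hvn⟩
    rcases hPI v hv with h | h | h
    · exact h
    · exact absurd (Or.inl h) hvn
    · exact absurd (Or.inr h) hvn
  · rw [← hβU, image_iUnion₂]
    ext v
    simp only [mem_iUnion, Finset.mem_range]
    constructor
    · rintro ⟨i, hi, hv⟩
      exact ⟨i, hi, by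
        rw [← hkβ i hi]
        exact hv⟩
    · rintro ⟨i, hi, hv⟩
      exact ⟨i, hi, by
        rw [hkβ i hi]
        exact hv⟩
  · rw [← hy_0, hky 0 (by omega), hy0]
  · rw [← hy_n, hky n le_rfl, hyn]
  · intro v hv
    simp only [mem_iUnion, Finset.mem_range] at hv
    obtain ⟨i, hi, hv⟩ := hv
    have h1 := (hβ i hi).2 hv
    have hkv : k v ∈ β' i := by
      rw [← hkβ i hi]
      exact ⟨v, hv, rfl⟩
    have hfv : f v ∈ Metric.thickening δ (β' i) := by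
      rw [hG] at h1
      rcases h1 with h1 | ⟨h0, h1⟩ | ⟨h0, h1⟩
      · exact h1.2
      · rw [Metric.mem_thickening_iff]
        refine ⟨y' i, hys i hi, ?_⟩
        have h2 := hgf p hpK
        rw [h1, h0, hy0, ← hgp, dist_comm]
        linarith
      · rw [Metric.mem_thickening_iff]
        refine ⟨y' (i + 1), hye i hi, ?_⟩
        have h2 := hgf q hqK
        rw [h1, h0, hyn, ← hgq, dist_comm]
        linarith
    rw [Metric.mem_thickening_iff] at hfv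
    obtain ⟨b, hb, hfb⟩ := hfv
    have hbd : Bornology.IsBounded (β' i) := (hA1 ℂ _ _ _ (hβ' i hi).1).2.1.isBounded
    have h3 := Metric.dist_le_diam_of_mem hbd hkv hb
    have h4 := (hβ' i hi).2.1
    have h5 := dist_triangle (k v) b (f v)
    rw [dist_comm b (f v)] at h5
    linarith

end Pool.Agent.Helper69.SF
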